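import Pool.Agent.V1193.WalshLogG

/-!
# Nörlund logarithmic means of Walsh-Fourier series under the modulus condition

There is no martingale as asked for: under the stated modulus condition the logarithmic means converge
in weak-`L_p`, for all `0 < p ≤ 1`.  For `p = 1` they converge in weak-`L_1` for every `f ∈ H_1` (the
operators `L_N` are of weak type (1,1) uniformly in `N`).  For `0 < p < 1` the condition
`ω_{H_p}(1/2^n, f) = o(n / 2^{n(1/p-1)})` gives convergence in `H_p`, and `o` cannot be replaced by `O`,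
even for weak-`L_p` convergence.
-/

set_option autoImplicit false

namespace Pool.Agent.Results.MP_332aa0_an.LogMeansConverge

open MeasureTheory Filter Topology Pool.Agent.V1193.Walsh
open scoped ENNReal

/-- (1) The answer for all `0 < p ≤ 1`.  (2) All of `H_1` for `p = 1`.  (3) The sharp condition and
convergence in `H_p` for `0 < p < 1`.  (4) Sharpness of (3). -/
theorem result :
    (∀ p : ℝ, 0 < p → p ≤ 1 → ∀ f : ℕ → G → ℝ, Martingale f dyadic mu → hpNorm p f < ∞ →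
      (∃ C : ℝ, ∀ᶠ n : ℕ in atTop, modulus p f n ≤ ENNReal.ofReal
        (C * (Real.log n / ((2:ℝ)^((n:ℝ)*(1/p-1)) * (Real.log n)^(2*⌊p⌋₊))))) →
      ∃ g : G → ℝ, Measurable g ∧ (∀ᵐ x ∂mu, Tendsto (fun n => f n x) atTop (𝓝 (g x))) ∧
        Tendsto (fun k => weakNorm p (fun x => logMean k f x - g x)) atTop (𝓝 0)) ∧
    (∀ f : ℕ → G → ℝ, Martingale f dyadic mu → hpNorm 1 f < ∞ →
      ∃ g : G → ℝ, Measurable g ∧ (∀ᵐ x ∂mu, Tendsto (fun n => f n x) atTop (𝓝 (g x))) ∧
        Tendsto (fun k => weakNorm 1 (fun x => logMean k f x - g x)) atTop (𝓝 0)) ∧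
    (∀ p : ℝ, 0 < p → p < 1 → ∀ f : ℕ → G → ℝ, Martingale f dyadic mu → hpNorm p f < ∞ →
      Tendsto (fun n : ℕ => modulus p f n *
        ENNReal.ofReal ((2:ℝ)^((n:ℝ)*(1/p-1)) / ((n:ℝ)+1))) atTop (𝓝 0) →
      Tendsto (fun k => hpNorm p (fun m x => logMart k f m x - f m x)) atTop (𝓝 0)) ∧
    (∀ p : ℝ, 0 < p → p < 1 → ∃ f : ℕ → G → ℝ, Martingale f dyadic mu ∧ hpNorm p f < ∞ ∧
      (∃ C : ℝ, ∀ n : ℕ, modulus p f n ≤
        ENNReal.ofReal (C * (((n:ℝ)+1) / (2:ℝ)^((n:ℝ)*(1/p-1))))) ∧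
      ∃ g : G → ℝ, Measurable g ∧ (∀ᵐ x ∂mu, Tendsto (fun n => f n x) atTop (𝓝 (g x))) ∧
        ¬ Tendsto (fun k => weakNorm p (fun x => logMean k f x - g x)) atTop (𝓝 0)) := by
  have part2 : ∀ f : ℕ → G → ℝ, Martingale f dyadic mu → hpNorm 1 f < ∞ →
      ∃ g : G → ℝ, Measurable g ∧ (∀ᵐ x ∂mu, Tendsto (fun n => f n x) atTop (𝓝 (g x))) ∧
        Tendsto (fun k => weakNorm 1 (fun x => logMean k f x - g x)) atTop (𝓝 0) := by
    intro f hf hH
    have hmod := modulus_one_tendsto hf hH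
    obtain ⟨g, hg, hlim⟩ := exists_limit hf 1 one_pos hmod
    exact ⟨g, hg, hlim, weak_one_tendsto hf hg hlim hmod⟩
  refine ⟨?_, part2, ?_, ?_⟩
  · intro p hp0 hp1 f hf hH hmod
    rcases lt_or_eq_of_le hp1 with h | h
    · obtain ⟨C, hC⟩ := hmod
      have h1 := modulus_log_tendsto p hp0 h C hC
      have h2 := modulus_tendsto p hp0 h h1
      obtain ⟨g, hg, hlim⟩ := exists_limit hf p hp0 h2
      refine ⟨g, hg, hlim, ?_⟩
      have h3 := logMart_tendsto hf p hp0 h hH h1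
      refine tendsto_of_tendsto_of_tendsto_of_le_of_le tendsto_const_nhds h3
        (fun _ => zero_le) (fun k => ?_)
      exact (weakNorm_le p hp0 _ ((logMean_measurable k).sub hg)).trans
        (lpNorm_logMean_le p hp0 g hlim k)
    · subst h
      exact part2 f hf hH
  · intro p hp0 hp1 f hf hH hmod
    exact logMart_tendsto hf p hp0 hp1 hH hmod
  · intro p hp0 hp1
    obtain ⟨g, hg, hlim⟩ := exists_limit exf_mart p hp0 (exf_modulus_tendsto p hp0 hp1)
    exact ⟨exf, exf_mart, exf_hpNorm p hp0 hp1, ⟨_, exf_modulus p hp0 hp1⟩, g, hg, hlim,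
      exf_not_tendsto p hp0 hp1 hg hlim⟩

end Pool.Agent.Results.MP_332aa0_an.LogMeansConverge
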